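import Pool.Agent.Helper21.TTOProof

/-!
# `T ⊕ 0` need not be a truncated Toeplitz operator
-/

namespace Pool.Agent.Results.MP_3d2409_an.DirectSumWithZero

open Pool.Agent.Helper21.TTO

/-- There is a bounded operator `T` (on a three-dimensional Hilbert space) which is unitarily
equivalent to a truncated Toeplitz operator while `T ⊕ 0` is not. -/
theorem result :
    ∃ T : EuclideanSpace ℂ (Fin 3) →L[ℂ] EuclideanSpace ℂ (Fin 3),
      UnitarilyEquivalentToTTO T ∧ ¬ UnitarilyEquivalentToTTO (directSumZero T) :=
  ⟨Aux.Top, Aux.unitarilyEquivalent_Top, Aux.not_unitarilyEquivalent_Top⟩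

end Pool.Agent.Results.MP_3d2409_an.DirectSumWithZero
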